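import Pool.Agent.HA60.P5

set_option autoImplicit false

namespace Pool.Agent.Results.MP_e01de8_co.BelowTenNinths

open Pool.Agent.HA60

/-- For every finite graph `H` with an edge and `q(H) < 10/9`, where `q(H) = min_e m(H - e)`, the
number `ρ(H)` is rational: it is `q(H)` if `H` has a vertex of degree one, and `max (1, q(H))`
otherwise. As `q(H) ≤ ρ(H)`, this covers all `H` with `ρ(H) < 10/9`. -/
theorem result {W : Type} [Finite W] (H : SimpleGraph W) (hH : ∃ a b, H.Adj a b) :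
    q H ≤ rho H ∧
      ((∃ v, deg H v = 1) → rho H = q H) ∧
      (q H < 10 / 9 → (∀ v, deg H v ≠ 1) → rho H = max 1 (q H)) ∧
      (q H < 10 / 9 → ∃ r : ℚ, rho H = r) ∧
      (rho H < 10 / 9 → ∃ r : ℚ, rho H = r) := by
  have h1 := q_le_rho hH
  have h3 := q_rational hH
  have hleaf : (∃ v, deg H v = 1) → rho H = q H := by
    rintro ⟨w, hw⟩
    unfold deg at hw
    obtain ⟨a, ha⟩ := Set.ncard_eq_one.1 hw
    have hwa : a ∈ H.neighborSet w := by rw [ha]; rfl
    apply le_antisymm _ h1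
    apply rho_le_of_leaf (w := w) (a := a) hwa
    intro v hv
    have h2 : v ∈ H.neighborSet w := hv
    rw [ha] at h2
    exact h2
  have hno : q H < 10 / 9 → (∀ v, deg H v ≠ 1) → rho H = max 1 (q H) := by
    intro hq hdeg
    apply le_antisymm
    · rw [max_comm]
      exact rho_le_of_small hH hdeg hq
    · exact max_le (one_le_rho hH hdeg) h1
  have hrat : q H < 10 / 9 → ∃ r : ℚ, rho H = r := by
    intro hq
    by_cases h : ∃ v, deg H v = 1
    · rw [hleaf h]
      exact h3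
    · push Not at h
      rw [hno hq h]
      exact max_rational ⟨1, by simp⟩ h3
  exact ⟨h1, hleaf, hno, hrat, fun h => hrat (lt_of_le_of_lt h1 h)⟩

/-- A triangle with a vertex `w` of degree two and a vertex `a` of degree three, without any
condition on `q(H)`. -/
theorem triangle {W : Type} [Finite W] (H : SimpleGraph W) {w a c a' : W} (hwa : H.Adj w a)
    (hwc : H.Adj w c) (hac : H.Adj a c) (haa : H.Adj a a') (hwa' : a' ≠ w)
    (hN : ∀ v, H.Adj w v → v = a ∨ v = c)
    (hNa : ∀ v, H.Adj a v → v = w ∨ v = c ∨ v = a') :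
    q H ≤ rho H ∧ rho H ≤ max 1 (q H) ∧ ((∀ v, deg H v ≠ 1) → rho H = max 1 (q H)) := by
  have h1 := q_le_rho ⟨w, a, hwa⟩
  have h2 := rho_le_of_triangle hwa hwc hac haa hwa' hN hNa
  rw [max_comm] at h2
  exact ⟨h1, h2, fun hdeg => le_antisymm h2 (max_le (one_le_rho ⟨w, a, hwa⟩ hdeg) h1)⟩

/-- A component `K_{2,3}`, without any condition on `q(H)`. -/
theorem component {W : Type} [Finite W] (H : SimpleGraph W) {a b w₁ w₂ w₃ : W}
    (hK : K23 H a b w₁ w₂ w₃) :
    q H ≤ rho H ∧ rho H ≤ max 1 (q H) ∧ ((∀ v, deg H v ≠ 1) → rho H = max 1 (q H)) := by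
  have h1 := q_le_rho ⟨a, w₁, hK.a1⟩
  have h2 := rho_le_of_K23 hK
  rw [max_comm] at h2
  exact ⟨h1, h2, fun hdeg => le_antisymm h2 (max_le (one_le_rho ⟨a, w₁, hK.a1⟩ hdeg) h1)⟩

end Pool.Agent.Results.MP_e01de8_co.BelowTenNinths
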