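import Pool.Agent.HA60.R5

set_option autoImplicit false

namespace Pool.Agent.Results.MP_e01de8_co.LowDegreeRetract

open Pool.Agent.HA60

/-- Let `f` be a retraction of the finite graph `H` onto `X ∪ Y` which maps all vertices outside
`Y` into `X`, let all vertices of `X` have degree at most `d`, where `d ≥ 2`, and let `x₁ x₂` be an
edge inside `X` whose ends have at most one neighbour in `Y` each. Then
`q(H) ≤ ρ(H) ≤ max (q(H), d - 1)`; in particular `ρ(H) = q(H)` is rational if `d ≤ q(H) + 1`. -/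
theorem result {W : Type} [Finite W] (H : SimpleGraph W) (X Y : Set W) (f : W → W) (d : ℕ)
    (hR : Retr H X Y f) (hd : 2 ≤ d) (hdeg : ∀ x ∈ X, deg H x ≤ d) {x₁ x₂ : W}
    (hx₁ : x₁ ∈ X) (hx₂ : x₂ ∈ X) (hxx : H.Adj x₁ x₂)
    (h₁ : ∀ y ∈ Y, ∀ y' ∈ Y, H.Adj x₁ y → H.Adj x₁ y' → y = y')
    (h₂ : ∀ y ∈ Y, ∀ y' ∈ Y, H.Adj x₂ y → H.Adj x₂ y' → y = y') :
    q H ≤ rho H ∧ rho H ≤ max (q H) ((d : ℝ) - 1) ∧
      ((d : ℝ) - 1 ≤ q H → rho H = q H ∧ ∃ r : ℚ, rho H = r) := by
  have hE : ∃ a b, H.Adj a b := ⟨x₁, x₂, hxx⟩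
  have h3 := q_le_rho hE
  have h4 := rho_le_of_retr hR hd hdeg hx₁ hx₂ hxx h₁ h₂
  refine ⟨h3, h4, ?_⟩
  intro h
  rw [max_eq_left h] at h4
  have h5 : rho H = q H := le_antisymm h4 h3
  exact ⟨h5, by rw [h5]; exact q_rational hE⟩

/-- Special case `f = id`: two adjacent vertices of degree at most `d`, each with at most one
neighbour of degree greater than `d`. -/
theorem low_degree {W : Type} [Finite W] (H : SimpleGraph W) (d : ℕ) (hd : 2 ≤ d) {x₁ x₂ : W}
    (hxx : H.Adj x₁ x₂) (hx₁ : deg H x₁ ≤ d) (hx₂ : deg H x₂ ≤ d)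
    (h₁ : ∀ y y', d < deg H y → d < deg H y' → H.Adj x₁ y → H.Adj x₁ y' → y = y')
    (h₂ : ∀ y y', d < deg H y → d < deg H y' → H.Adj x₂ y → H.Adj x₂ y' → y = y') :
    q H ≤ rho H ∧ rho H ≤ max (q H) ((d : ℝ) - 1) := by
  have hR : Retr H {v | deg H v ≤ d} {v | d < deg H v} id :=
    { hom := fun _ _ h => h
      fX := fun _ _ => rfl
      fY := fun _ _ => rfl
      toX := fun v hv => by
        simp only [Set.mem_setOf_eq, not_lt] at hv
        exact hv
      disj := fun v hv => by
        simp only [Set.mem_setOf_eq, not_lt] at hv ⊢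
        exact hv }
  have h := result H {v | deg H v ≤ d} {v | d < deg H v} id d hR hd (fun x hx => hx)
    hx₁ hx₂ hxx (fun y hy y' hy' => h₁ y y' hy hy') (fun y hy y' hy' => h₂ y y' hy hy')
  exact ⟨h.1, h.2.1⟩

/-- Special case: a graph with an `r`-colouring and an `r`-clique of vertices of degree at most
`d` (for `r = 2`: a bipartite graph with two adjacent vertices of degree at most `d`). -/
theorem clique {W : Type} [Finite W] (H : SimpleGraph W) (d r : ℕ) (hd : 2 ≤ d) (hr : 2 ≤ r)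
    (C : H.Coloring (Fin r)) (κ : Fin r → W) (hκ : ∀ i j, i ≠ j → H.Adj (κ i) (κ j))
    (hdeg : ∀ i, deg H (κ i) ≤ d) :
    q H ≤ rho H ∧ rho H ≤ max (q H) ((d : ℝ) - 1) := by
  classical
  have hinj : Function.Injective (fun i => C (κ i)) := by
    intro i j hij
    by_contra hne
    exact C.valid (hκ i j hne) hij
  have hbij : Function.Bijective (fun i => C (κ i)) := Finite.injective_iff_bijective.1 hinj
  obtain ⟨g, hg1, hg2⟩ := Function.bijective_iff_has_inverse.1 hbij
  have hR : Retr H (Set.range κ) ∅ (fun v => κ (g (C v))) :=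
    { hom := by
        intro a b hab
        apply hκ
        intro h
        apply C.valid hab
        have h1 := hg2 (C a)
        have h2 := hg2 (C b)
        change C (κ (g (C a))) = C a at h1
        change C (κ (g (C b))) = C b at h2
        rw [← h1, ← h2, h]
      fX := by
        rintro v ⟨i, rfl⟩
        have h1 := hg1 i
        change g (C (κ i)) = i at h1
        change κ (g (C (κ i))) = κ i
        rw [h1]
      fY := fun v hv => absurd hv (Set.notMem_empty v)
      toX := fun v _ => ⟨_, rfl⟩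
      disj := fun v _ => Set.notMem_empty v }
  have h01 : (⟨0, by omega⟩ : Fin r) ≠ ⟨1, by omega⟩ := by
    intro h
    exact absurd (congrArg Fin.val h) (by simp)
  have h := result H (Set.range κ) ∅ (fun v => κ (g (C v))) d hR hd
    (by rintro x ⟨i, rfl⟩; exact hdeg i) ⟨_, rfl⟩ ⟨_, rfl⟩ (hκ _ _ h01)
    (fun y hy => absurd hy (Set.notMem_empty y)) (fun y hy => absurd hy (Set.notMem_empty y))
  exact ⟨h.1, h.2.1⟩

end Pool.Agent.Results.MP_e01de8_co.LowDegreeRetract
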