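import Pool.Agent.HA60.N5

set_option autoImplicit false

namespace Pool.Agent.Results.MP_e01de8_co.Nucleation

open Pool.Agent.HA60 SimpleGraph

/-- Let `X` be a set of vertices of degree at most `d` of a finite graph `H` which has a vertex of
degree between `1` and `d`. Then `q(H) ≤ ν(H) ≤ ρ(H) ≤ max (q(H), ν_X(H), d - 1)`, and
`ρ(H) = q(H)` is rational if `ν_X(H) ≤ q(H)` and `d - 1 ≤ q(H)`. Here `ν(H)` is the infimum of the
maximum densities of the finite graphs `B` whose closure contains `K_{v(H)}`, and `ν_X(H)` is the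
infimum over the finite graphs `B` such that the closure of the disjoint union of `B` and the
graph `H_X` contains `K_{v(H)}`, where `H_X` is `H` with `2 v(H)` clones of each vertex of `X`. -/
theorem result {W : Type} [Finite W] (H : SimpleGraph W) (X : Set W) (d : ℕ)
    (hX : ∀ x ∈ X, deg H x ≤ d) (hd : ∃ w, 1 ≤ deg H w ∧ deg H w ≤ d) :
    q H ≤ nu H ∧ nu H ≤ rho H ∧ rho H ≤ max (max (q H) (nuRel H X)) ((d : ℝ) - 1) ∧
      (nuRel H X ≤ q H → (d : ℝ) - 1 ≤ q H → rho H = q H ∧ ∃ r : ℚ, rho H = r) := by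
  obtain ⟨w, hw, hwd⟩ := hd
  obtain ⟨c₀, hc₀⟩ := (Set.ncard_pos (Set.toFinite _)).1 (show 0 < (H.neighborSet w).ncard from hw)
  have hH : ∃ a b, H.Adj a b := ⟨w, c₀, hc₀⟩
  have h1 := rho_le_nuRel hX hc₀ hwd
  refine ⟨q_le_nu hH, nu_le_rho hH, h1, ?_⟩
  intro h2 h3
  rw [max_eq_left h2, max_eq_left h3] at h1
  have h4 : rho H = q H := le_antisymm h1 (q_le_rho hH)
  exact ⟨h4, by rw [h4]; exact q_rational hH⟩

/-- The case `X = ∅`. -/
theorem sandwich {W : Type} [Finite W] (H : SimpleGraph W) (w : W) (hw : 1 ≤ deg H w) :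
    q H ≤ nu H ∧ nu H ≤ rho H ∧ rho H ≤ max (nu H) ((deg H w : ℝ) - 1) ∧
      ((deg H w : ℝ) - 1 ≤ nu H → rho H = nu H) := by
  obtain ⟨h1, h2, h3, _⟩ := result H ∅ (deg H w) (by simp) ⟨w, hw, le_rfl⟩
  have h4 : rho H ≤ max (nu H) ((deg H w : ℝ) - 1) :=
    le_trans h3 (max_le_max (max_le h1 (nuRel_le_nu H ∅)) le_rfl)
  refine ⟨h1, h2, h4, ?_⟩
  intro h5
  rw [max_eq_left h5] at h4
  exact le_antisymm h4 h2

/-- The case in which the closure of `H_X` contains a complete graph on `v(H)` vertices. -/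
theorem clones {W : Type} [Finite W] (H : SimpleGraph W) (X : Set W) (d : ℕ)
    (hX : ∀ x ∈ X, deg H x ≤ d) (hd : ∃ w, 1 ≤ deg H w ∧ deg H w ≤ d)
    (κ : W ↪ W ⊕ (W × (Bool × W)))
    (hκ : ∀ a b, a ≠ b → Act H (cloned H X) (κ a) (κ b)) :
    q H ≤ rho H ∧ rho H ≤ max (q H) ((d : ℝ) - 1) ∧
      ((d : ℝ) - 1 ≤ q H → rho H = q H ∧ ∃ r : ℚ, rho H = r) := by
  obtain ⟨h1, h2, h3, h4⟩ := result H X d hX hd
  have h5 := nuRel_eq_zero κ hκ
  obtain ⟨w, hw, hwd⟩ := hd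
  obtain ⟨c₀, hc₀⟩ := (Set.ncard_pos (Set.toFinite _)).1 (show 0 < (H.neighborSet w).ncard from hw)
  obtain ⟨a, b, hab, h6⟩ := q_mem ⟨w, c₀, hc₀⟩
  have h7 : nuRel H X ≤ q H := by
    rw [h5, h6]
    exact maxDens_nonneg _
  rw [max_eq_left h7] at h3
  exact ⟨le_trans h1 h2, h3, fun h8 => h4 h7 h8⟩

/-- If `H` has a vertex of degree two and no vertex of degree one, then `ρ(H) = max (1, ν(H))`. -/
theorem degree_two {W : Type} [Finite W] (H : SimpleGraph W) {w : W} (hw : deg H w = 2)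
    (hdeg : ∀ v, deg H v ≠ 1) : rho H = max 1 (nu H) := by
  obtain ⟨_, h2, h3, _⟩ := sandwich H w (by omega)
  obtain ⟨c₀, hc₀⟩ := (Set.ncard_pos (Set.toFinite _)).1
    (show 0 < (H.neighborSet w).ncard by unfold deg at hw; omega)
  have h4 := one_le_rho ⟨w, c₀, hc₀⟩ hdeg
  have h5 : (deg H w : ℝ) - 1 = 1 := by rw [hw]; norm_num
  rw [h5, max_comm] at h3
  exact le_antisymm h3 (max_le h4 h2)

/-- The criterion with a homomorphism `φ` which maps all edges of `H` except `u v` to edges of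
`H`, with `φ(u) = φ(v)` of degree between `1` and `d`, and which is injective on the set of the
vertices whose image has degree greater than `d`. -/
theorem hom {W : Type} [Finite W] (H : SimpleGraph W) {d : ℕ} {u v : W} (huv : H.Adj u v)
    (φ : W → W) (hφ : ∀ a b, H.Adj a b → s(a, b) ≠ s(u, v) → H.Adj (φ a) (φ b))
    (hφuv : φ u = φ v) (h1 : 1 ≤ deg H (φ u)) (hd : deg H (φ u) ≤ d)
    (hinj : ∀ a b, d < deg H (φ a) → φ a = φ b → a = b) :
    q H ≤ rho H ∧ rho H ≤ max (q H) ((d : ℝ) - 1) := by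
  obtain ⟨c₀, hc₀⟩ := (Set.ncard_pos (Set.toFinite _)).1
    (show 0 < (H.neighborSet (φ u)).ncard from h1)
  refine ⟨q_le_rho ⟨u, v, huv⟩, ?_⟩
  exact rho_le_of_hom (X := {x | deg H x ≤ d}) (le_trans h1 hd) (fun x hx => hx) huv φ hφ hφuv hd
    (fun a b ha => hinj a b (by simpa using ha)) ⟨c₀, hc₀⟩

/-- Special case: an edge `x u` with `N[u] ⊆ N[x]` and `deg x ≤ d`. -/
theorem dominated {W : Type} [Finite W] (H : SimpleGraph W) {d : ℕ} {x u : W} (hxu : H.Adj x u)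
    (hdx : deg H x ≤ d) (hN : ∀ t, H.Adj u t → t = x ∨ H.Adj x t) :
    q H ≤ rho H ∧ rho H ≤ max (q H) ((d : ℝ) - 1) :=
  ⟨q_le_rho ⟨x, u, hxu⟩, rho_le_of_dominated hxu hdx hN⟩

/-- Special case: a simplicial vertex `u` with a neighbour `x` of degree at most `d`. -/
theorem simplicial {W : Type} [Finite W] (H : SimpleGraph W) {d : ℕ} {x u : W}
    (hxu : H.Adj x u) (hdx : deg H x ≤ d)
    (hs : ∀ s t, H.Adj u s → H.Adj u t → s ≠ t → H.Adj s t) :
    q H ≤ rho H ∧ rho H ≤ max (q H) ((d : ℝ) - 1) := by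
  classical
  apply dominated H hxu hdx
  intro t ht
  by_cases h : t = x
  · exact Or.inl h
  · exact Or.inr (hs x t hxu.symm ht (fun h' => h h'.symm))

/-- Special case: `H` becomes `r`-colourable by deleting one edge, and contains an `r`-clique of
vertices of degree at most `d`. -/
theorem critical {W : Type} [Finite W] (H : SimpleGraph W) {d r : ℕ} (hd : 2 ≤ d) (hr : 2 ≤ r)
    {u v : W} (huv : H.Adj u v) (C : (H.deleteEdges {s(u, v)}).Coloring (Fin r))
    (κ : Fin r → W) (hκ : ∀ i j, i ≠ j → H.Adj (κ i) (κ j)) (hdeg : ∀ i, deg H (κ i) ≤ d) :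
    q H ≤ rho H ∧ rho H ≤ max (q H) ((d : ℝ) - 1) :=
  ⟨q_le_rho ⟨u, v, huv⟩, rho_le_of_clique hd hr huv C κ hκ hdeg⟩

/-- Special case: `S` is a vertex cover which contains exactly one edge `p p'`, `deg p = 3`,
`t₀ ∉ S` has degree at most `d`, and the neighbourhood of `t₀` percolates to `S` under the rule
that a set which contains all but one of the neighbours of some `t ∉ S` gets the last one. -/
theorem cover {W : Type} [Finite W] (H : SimpleGraph W) {d : ℕ} {S : Set W} {p p' t₀ c₀ : W}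
    (hS : ∀ a b, H.Adj a b → a ∈ S ∨ b ∈ S) (hp : p ∈ S) (hp' : p' ∈ S) (hpp : H.Adj p p')
    (honly : ∀ a b, a ∈ S → b ∈ S → H.Adj a b → s(a, b) = s(p, p')) (hp3 : deg H p = 3)
    (htc : H.Adj t₀ c₀) (hd : deg H t₀ ≤ d)
    (hperc : ∀ A : Set W, (∀ s, H.Adj t₀ s → s ∈ A) →
      (∀ t s, t ∉ S → H.Adj t s → (∀ s', H.Adj t s' → s' ≠ s → s' ∈ A) → s ∈ A) → S ⊆ A) :
    q H ≤ rho H ∧ rho H ≤ max (q H) ((d : ℝ) - 1) :=
  ⟨q_le_rho ⟨p, p', hpp⟩, rho_le_of_cubic_end hS hp hp' hpp honly htc hd hperc hp3⟩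

end Pool.Agent.Results.MP_e01de8_co.Nucleation
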