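import Pool.Agent.HA60.Cor

set_option autoImplicit false

namespace Pool.Agent.Results.MP_e01de8_co.SparsePart

open Pool.Agent.HA60

/-- If `X` is a `θ`-sparse part of the finite graph `H`, then `q(H) ≤ ρ(H) ≤ max (q(H), θ)`, where
`q(H) = min_e m(H - e)`. So `ρ(H) = q(H)` is rational if `θ ≤ q(H)`; and `ρ(H) = max (1, q(H))` is
rational if `θ ≤ 1` and no vertex of `H` has degree one. -/
theorem result {W : Type} [Finite W] (H : SimpleGraph W) (X : Set W) (θ : ℝ)
    (hX : SparsePart H X θ) :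
    q H ≤ rho H ∧ rho H ≤ max (q H) θ ∧
      (θ ≤ q H → rho H = q H ∧ ∃ r : ℚ, rho H = r) ∧
      (θ ≤ 1 → (∀ v, deg H v ≠ 1) → rho H = max 1 (q H) ∧ ∃ r : ℚ, rho H = r) := by
  obtain ⟨a, _, b, _, hab⟩ := hX.edge
  have hE : ∃ a b, H.Adj a b := ⟨a, b, hab⟩
  have h1 := q_le_rho hE
  have h2 := rho_le_of_sparse hX
  have h3 := q_rational hE
  refine ⟨h1, h2, ?_, ?_⟩
  · intro h
    rw [max_eq_left h] at h2
    have h4 : rho H = q H := le_antisymm h2 h1
    exact ⟨h4, by rw [h4]; exact h3⟩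
  · intro h hdeg
    have h5 := one_le_rho hE hdeg
    have h4 : rho H = max 1 (q H) := by
      apply le_antisymm
      · refine le_trans h2 (max_le (le_max_right _ _) ?_)
        exact le_trans h (le_max_left _ _)
      · exact max_le h5 h1
    exact ⟨h4, by rw [h4]; exact max_rational ⟨1, by simp⟩ h3⟩

/-- Special case: `X` is any set of `m ≥ 2` vertices which contains an edge and each of whose
vertices has at most one neighbour outside `X`; here `θ = λ(K_{m+1}) = (m+2)/2 - 1/(m-1)`. -/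
theorem small_part {W : Type} [Finite W] (H : SimpleGraph W) (X : Set W)
    (hedge : ∃ a ∈ X, ∃ b ∈ X, H.Adj a b)
    (huniq : ∀ v ∈ X, ∀ u u', u ∉ X → u' ∉ X → H.Adj v u → H.Adj v u' → u = u') :
    q H ≤ rho H ∧ rho H ≤ max (q H) (((X.ncard : ℝ) + 2) / 2 - 1 / ((X.ncard : ℝ) - 1)) :=
  ⟨(result H X _ (sparse_small hedge huniq)).1, (result H X _ (sparse_small hedge huniq)).2.1⟩

/-- Special case: two adjacent vertices of degree at most two. -/
theorem two_adjacent {W : Type} [Finite W] (H : SimpleGraph W) {x y : W} (hxy : H.Adj x y)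
    (hx : deg H x ≤ 2) (hy : deg H y ≤ 2) :
    q H ≤ rho H ∧ rho H ≤ max 1 (q H) ∧ ((∀ v, deg H v ≠ 1) → rho H = max 1 (q H)) := by
  have huniq : ∀ x y : W, H.Adj x y → deg H x ≤ 2 → ∀ u u', u ≠ y → u' ≠ y → H.Adj x u →
      H.Adj x u' → u = u' := by
    intro x y hxy hx u u' hu hu' h1 h2
    by_contra hne
    have h3 : ({y, u, u'} : Set W) ⊆ H.neighborSet x := by
      rintro z (rfl | rfl | rfl)
      · exact hxy
      · exact h1
      · exact h2
    have h4 := Set.ncard_le_ncard h3 (Set.toFinite _)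
    have h5 : ({y, u, u'} : Set W).ncard = 3 :=
      Set.ncard_eq_three.2 ⟨y, u, u', hu.symm, hu'.symm, hne, rfl⟩
    rw [h5] at h4
    exact absurd (le_trans h4 hx) (by norm_num)
  have hcard : ({x, y} : Set W).ncard = 2 := Set.ncard_pair hxy.ne
  have hS := sparse_small (H := H) (X := ({x, y} : Set W))
    ⟨x, by simp, y, by simp, hxy⟩ (by
      rintro v (rfl | rfl) u u' hu hu' h1 h2
      · simp only [Set.mem_insert_iff, Set.mem_singleton_iff, not_or] at hu hu'
        exact huniq v y hxy hx u u' hu.2 hu'.2 h1 h2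
      · simp only [Set.mem_insert_iff, Set.mem_singleton_iff, not_or] at hu hu'
        exact huniq v x hxy.symm hy u u' hu.1 hu'.1 h1 h2)
  have hlam : lamK ({x, y} : Set W).ncard = 1 := by
    rw [hcard]
    unfold lamK
    norm_num
  rw [hlam] at hS
  obtain ⟨h1, h2, _, h4⟩ := result H _ 1 hS
  exact ⟨h1, by rw [max_comm]; exact h2, fun h => (h4 (le_refl _) h).1⟩

/-- Special case: no edge leaves `X` (a union of components). -/
theorem components {W : Type} [Finite W] (H : SimpleGraph W) (X : Set W)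
    (hedge : ∃ a ∈ X, ∃ b ∈ X, H.Adj a b) (hX : ∀ v ∈ X, ∀ u, H.Adj v u → u ∈ X) :
    q H ≤ rho H ∧ rho H ≤ max (q H) (rho (H.induce X)) := by
  have hS : SparsePart H X (rho (H.induce X)) :=
    ⟨hedge, fun v hv u u' hu _ h1 _ => absurd (hX v hv u h1) hu, le_refl _,
      fun h => by
        obtain ⟨v, hv, u, hu, h1⟩ := h
        exact absurd (hX v hv u h1) hu⟩
  exact ⟨(result H X _ hS).1, (result H X _ hS).2.1⟩

end Pool.Agent.Results.MP_e01de8_co.SparsePart
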